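import Pool.Agent.W707.HM.Stm

/-! Project HM (helper707), part GAM: the structure of `Γ`. -/

set_option autoImplicit false

namespace Pool.Agent.W959.HM

open Set Filter Topology Pool.Agent.W707.HM

theorem fs_eq {f fs tau : ℝ → ℝ} (hC : Cj f fs tau) {t m : ℝ} (h : SG f t m) :
    fs m = m * t - f t := by
  obtain ⟨h1, h2⟩ := hC m
  have h3 := h1.2 t h.1
  have h4 := h.2 (tau m) h1.1
  rw [h2]
  linarith

theorem sub {f fs tau : ℝ → ℝ} (hC : Cj f fs tau) (m m' : ℝ) :
    fs m + tau m * (m' - m) ≤ fs m' := by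
  obtain ⟨h1, h2⟩ := hC m
  obtain ⟨h3, h4⟩ := hC m'
  have h5 := h3.2 (tau m) h1.1
  rw [h2, h4]
  linarith

theorem fs_cont {f fs tau : ℝ → ℝ} (hC : Cj f fs tau) : Continuous fs := by
  have h : LipschitzWith 1 fs := by
    refine LipschitzWith.of_le_add_mul 1 fun x y => ?_
    have h1 := sub hC x y
    have h2 := (hC x).1.1
    rw [NNReal.coe_one, one_mul, Real.dist_eq]
    have h3 : tau x * (x - y) ≤ |x - y| := by
      refine (le_abs_self _).trans ?_
      rw [abs_mul]
      have h4 : |tau x| ≤ 1 := abs_le.2 ⟨h2.1, h2.2⟩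
      calc |tau x| * |x - y| ≤ 1 * |x - y| := mul_le_mul_of_nonneg_right h4 (abs_nonneg _)
        _ = |x - y| := one_mul _
    have h5 : tau x * (y - x) = -(tau x * (x - y)) := by ring
    linarith
  exact h.continuous

theorem Gm_sub {f fs tau : ℝ → ℝ} (hC : Cj f fs tau) {p : ℝ} (hp : 1 ≤ p) (m m' : ℝ) :
    Gm p fs m + (p * tau m - (p - 2)) * (m' - m) ≤ Gm p fs m' := by
  have h1 := sub hC m m'
  unfold Gm
  have h2 : p * (fs m + tau m * (m' - m)) ≤ p * fs m' :=
    mul_le_mul_of_nonneg_left h1 (by linarith)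
  linarith

theorem main (hU : S_UNI) (hT : S_TAU) : S_GAM := by
  intro p f fs tau hA hC t0 m0 hSG ht0 ham hpos
  have hp := hA.hp
  set a : ℝ := -(p / 2 * f (-1)) with ha
  set mb : ℝ := p / 2 * f 1 with hmb
  have hSa : SG f (-1) a := by
    refine ⟨⟨le_rfl, by norm_num⟩, fun u hu => ?_⟩
    have h1 := hA.qe u hu
    have h2 : f (-1) + a * (u - -1) = f (-1) * (1 - p / 2 * (1 + u)) := by rw [ha]; ring
    rw [h2]
    exact h1
  have hSb : SG f 1 mb := by
    refine ⟨⟨by norm_num, le_rfl⟩, fun u hu => ?_⟩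
    have h1 := hA.qe' (-u) ⟨by linarith [hu.2], by linarith [hu.1]⟩
    simp only [neg_neg] at h1
    have h2 : f 1 + mb * (u - 1) = f 1 * (1 - p / 2 * (1 + -u)) := by rw [hmb]; ring
    rw [h2]
    exact h1
  have hfa : fs a = (p / 2 - 1) * f (-1) := by
    rw [fs_eq hC hSa, ha]
    ring
  have hfb : Gm p fs mb = 0 := by
    unfold Gm
    rw [fs_eq hC hSb, hmb]
    ring
  have hf0 : fs m0 = m0 * t0 - f t0 := fs_eq hC hSG
  have hG0 : 0 < Gm p fs m0 := by
    unfold Gm
    rw [hf0]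
    exact hpos
  have hm0 : m0 < mb := by
    have h1 := hSG.2 1 ⟨by norm_num, le_rfl⟩
    have h2 := hSb.2 t0 hSG.1
    have h3 : 0 ≤ (mb - m0) * (1 - t0) := by linarith
    have h4 : 0 ≤ mb - m0 := by
      by_contra hcon
      have : (mb - m0) * (1 - t0) < 0 := mul_neg_of_neg_of_pos (by linarith) (by linarith)
      linarith
    refine lt_of_le_of_ne (by linarith) fun h => ?_
    rw [h, hfb] at hG0
    exact lt_irrefl _ hG0
  -- the first zero
  have hcont : Continuous (Gm p fs) := by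
    unfold Gm
    exact (continuous_const.mul (fs_cont hC)).sub (continuous_const.mul continuous_id)
  obtain ⟨b, hb1, hb2⟩ : ∃ b, IsLeast (Icc m0 mb ∩ {m | Gm p fs m ≤ 0}) b :=
    (isCompact_Icc.inter_right (isClosed_le hcont continuous_const)).exists_isLeast
      ⟨mb, ⟨hm0.le, le_rfl⟩, hfb.le⟩
  have hGb : Gm p fs b ≤ 0 := hb1.2
  have hm0b : m0 < b := by
    refine lt_of_le_of_ne hb1.1.1 fun h => ?_
    rw [← h] at hGb
    linarith
  have hmid : ∀ m, m0 ≤ m → m < b → 0 < Gm p fs m := by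
    intro m h1 h2
    by_contra hcon
    have h3 := hb2 ⟨⟨h1, by linarith [hb1.1.2]⟩, not_lt.1 hcon⟩
    linarith
  have hall : ∀ m, m < b → 0 < Gm p fs m := by
    intro m hm
    rcases le_or_gt m0 m with h | h
    · exact hmid m h hm
    · have h1 := Gm_sub hC hp m0 b
      have h2 := Gm_sub hC hp m0 m
      have hσ : p * tau m0 - (p - 2) < 0 := by
        by_contra hcon
        have : 0 ≤ (p * tau m0 - (p - 2)) * (b - m0) := mul_nonneg (not_lt.1 hcon) (by linarith)
        linarith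
      have h3 : 0 < (p * tau m0 - (p - 2)) * (m - m0) := mul_pos_of_neg_of_neg hσ (by linarith)
      linarith
  have hσ : ∀ m, m < b → p * tau m < p - 2 := by
    intro m hm
    have h1 := Gm_sub hC hp m b
    have h2 := hall m hm
    by_contra hcon
    have : 0 ≤ (p * tau m - (p - 2)) * (b - m) :=
      mul_nonneg (by linarith [not_lt.1 hcon]) (by linarith)
    linarith
  have htau1 : ∀ m, m < b → tau m < 1 := by
    intro m hm
    have h1 := hσ m hm
    by_contra hcon
    have : p * 1 ≤ p * tau m := mul_le_mul_of_nonneg_left (not_lt.1 hcon) (by linarith)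
    linarith
  have hp1 : 1 < p := by
    have h1 := hσ m0 hm0b
    have h2 : p * (-1) ≤ p * tau m0 := mul_le_mul_of_nonneg_left (hC m0).1.1.1 (by linarith)
    linarith
  have hGa : 0 < (p - 2) * f (-1) := by
    have h1 := hall a (by linarith)
    have h2 : Gm p fs a = p * ((p - 2) * f (-1)) := by
      unfold Gm
      rw [hfa, ha]
      ring
    rw [h2] at h1
    exact (mul_pos_iff_of_pos_left (by linarith)).1 h1
  have huniq : ∀ m, m < b → ∀ t, SG f t m → t = tau m := by
    intro m hm t ht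
    have h1 := (hC m).1
    have h2 := hall m hm
    have h3 : t ≤ tau m := hU p f hp hA.cvx hA.hi m (tau m) t h1 ht (htau1 m hm) (by
      rw [← (hC m).2]; exact h2)
    have h4 : tau m ≤ t := hU p f hp hA.cvx hA.hi m t (tau m) ht h1
      (lt_of_le_of_lt h3 (htau1 m hm)) (by rw [← fs_eq hC ht]; exact h2)
    exact le_antisymm h3 h4
  refine ⟨hp1, hGa, hfa, (huniq a (by linarith) _ hSa).symm, (huniq m0 hm0b _ hSG).symm, hf0, b,
    hm0b, fun m hm => ?_⟩
  have hmb' := hm.2
  obtain ⟨hc, hd⟩ := hT f fs tau hA.cont hC m (huniq m hmb')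
  have hτ := (hC m).1.1.1
  refine ⟨hall m hmb', hτ, htau1 m hmb', hc, hd, ?_⟩
  have h1 := Gm_sub hC hp m b
  have hτ1 : 0 < 1 - tau m := by linarith [htau1 m hmb']
  unfold Dm
  rw [div_le_iff₀ hτ1]
  have h2 : Gm p fs m ≤ ((p - 2) - p * tau m) * (b - m) := by linarith
  refine h2.trans ?_
  have hbm : 0 < b - m := by linarith
  have h3 : (p - 2) - p * tau m ≤ p * (p - 1) * (1 - tau m) := by
    nlinarith [mul_nonneg (by linarith : (0 : ℝ) ≤ p - 1) (by linarith : (0 : ℝ) ≤ p - 1),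
      mul_nonneg (mul_nonneg (by linarith : (0 : ℝ) ≤ p - 1) (by linarith : (0 : ℝ) ≤ p - 1))
        hτ1.le]
  calc ((p - 2) - p * tau m) * (b - m) ≤ (p * (p - 1) * (1 - tau m)) * (b - m) :=
        mul_le_mul_of_nonneg_right h3 hbm.le
    _ = p * (p - 1) * (b - m) * (1 - tau m) := by ring

end Pool.Agent.W959.HM
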